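import Pool.Agent.N879.GD.Stm

/-!
Project GZ, package GK (helper8): the bound of `GG`.
-/

set_option autoImplicit false

namespace Pool.Agent.U8.GZ

open Complex MeasureTheory Set
open Pool.Agent.N879.GD

lemma arctan_lb {t : ℝ} (h0 : 0 ≤ t) (h1 : t ≤ 1) : t / 2 ≤ Real.arctan t := by
  have hs : Real.tan (t / 2) ≤ t := by
    rw [Real.tan_eq_sin_div_cos]
    have hc : 1 / 2 ≤ Real.cos (t / 2) := by
      have := Real.one_sub_sq_div_two_le_cos (x := t / 2)
      nlinarith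
    have hsn : Real.sin (t / 2) ≤ t / 2 := Real.sin_le (by linarith)
    rw [div_le_iff₀ (by linarith)]
    nlinarith
  calc t / 2 = Real.arctan (Real.tan (t / 2)) :=
        (Real.arctan_tan (by linarith [Real.pi_gt_three]) (by linarith [Real.pi_gt_three])).symm
    _ ≤ Real.arctan t := Real.arctan_strictMono.monotone hs

lemma abs_arctan (x : ℝ) : |Real.arctan x| = Real.arctan |x| := by
  rcases le_total 0 x with h | h
  · rw [abs_of_nonneg h, abs_of_nonneg]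
    rw [← Real.arctan_zero]
    exact Real.arctan_strictMono.monotone h
  · rw [abs_of_nonpos h, Real.arctan_neg, abs_of_nonpos]
    rw [← Real.arctan_zero]
    exact Real.arctan_strictMono.monotone h

theorem t_GK (h1 : S_GAM) (h2 : S_GF) : S_GK := by
  intro b hb
  obtain ⟨C, hC, hG⟩ := h1 b hb
  refine ⟨C, hC, fun T x ω hT hxT => ?_⟩
  obtain ⟨-, h⟩ := h2 b T x ω hb hT
  rw [h, norm_mul, norm_mul]
  obtain ⟨z, hz⟩ : ∃ z : ℂ, z = (T : ℂ)⁻¹ - I * x := ⟨_, rfl⟩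
  rw [← hz]
  have hz' : z = ((T⁻¹ : ℝ) : ℂ) - I * x := by rw [hz]; push_cast; rfl
  have hre : z.re = T⁻¹ := by rw [hz']; simp [-ofReal_inv]
  have him : z.im = -x := by rw [hz']; simp [-ofReal_inv]
  have hTi : 0 < T⁻¹ := inv_pos.2 hT
  have hz0 : z ≠ 0 := by
    intro h0
    rw [h0] at hre
    simp at hre
    exact hT.ne hre
  obtain ⟨y, hy⟩ : ∃ y : ℝ, y = |x| * T := ⟨_, rfl⟩
  rw [← hy] at hxT ⊢
  have hy0 : 0 < y := by linarith
  -- the argument
  have harg : |arg z| = Real.arctan y := by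
    have h3 : |arg z| < Real.pi / 2 := by
      rw [Complex.abs_arg_lt_pi_div_two_iff]
      left
      rw [hre]
      exact hTi
    have h4 := abs_lt.1 h3
    have h5 : Real.arctan (Real.tan (arg z)) = arg z := Real.arctan_tan h4.1 h4.2
    rw [← h5, Complex.tan_arg, hre, him, abs_arctan, abs_div, abs_neg, abs_of_pos hTi, hy,
      div_inv_eq_mul]
  have harg2 : |arg z| ≤ Real.pi / 2 - 1 / (2 * y) := by
    have h3 := Real.arctan_inv_of_pos hy0
    have h4 := arctan_lb (t := y⁻¹) (by positivity) (inv_le_one_of_one_le₀ hxT)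
    have h5 : y⁻¹ / 2 = 1 / (2 * y) := by
      rw [inv_eq_one_div, div_div]
      ring
    rw [harg]
    linarith
  -- the exponential
  have hn : ‖cexp (-((b : ℂ) - I * ω) * Complex.log z)‖ =
      (‖z‖ ^ b)⁻¹ * Real.exp (-(ω * arg z)) := by
    rw [Complex.norm_exp]
    have h3 : (-((b : ℂ) - I * ω) * Complex.log z).re = -(b * Real.log ‖z‖) + -(ω * arg z) := by
      simp [Complex.log_re, Complex.log_im]
      ring
    rw [h3, Real.exp_add, Real.exp_neg, Real.exp_nat_mul, Real.exp_log (norm_pos_iff.2 hz0)]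
  have hn2 : Real.exp (-(ω * arg z)) ≤ Real.exp (|ω| * (Real.pi / 2 - 1 / (2 * y))) := by
    apply Real.exp_le_exp.2
    calc -(ω * arg z) ≤ |ω * arg z| := neg_le_abs _
      _ = |ω| * |arg z| := abs_mul _ _
      _ ≤ |ω| * (Real.pi / 2 - 1 / (2 * y)) := by gcongr
  have hTn : ‖((T : ℂ) ^ b)⁻¹‖ = (T ^ b)⁻¹ := by
    rw [norm_inv, norm_pow, Complex.norm_real, Real.norm_eq_abs, abs_of_pos hT]
  have hzx : |x| ≤ ‖z‖ := by
    have := Complex.abs_im_le_norm z
    rwa [him, abs_neg] at this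
  have hzy : (T ^ b)⁻¹ * (‖z‖ ^ b)⁻¹ ≤ (y ^ b)⁻¹ := by
    rw [← mul_inv, ← mul_pow]
    apply inv_anti₀ (by positivity)
    apply pow_le_pow_left₀ hy0.le
    rw [hy, mul_comm]
    gcongr
  have hω : 0 < 1 + |ω| := by positivity
  have hpow : (1 + |ω|) ^ ((b : ℝ) - 1 / 2) = (1 + |ω|) ^ (-(1 / 2 : ℝ)) * (1 + |ω|) ^ b := by
    rw [← Real.rpow_natCast, ← Real.rpow_add hω]
    congr 1
    ring
  rw [hn, hTn]
  have hexp : Real.exp (-(Real.pi * |ω| / 2)) * Real.exp (|ω| * (Real.pi / 2 - 1 / (2 * y))) =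
      Real.exp (-(|ω| / (2 * y))) := by
    rw [← Real.exp_add]
    congr 1
    ring
  calc (T ^ b)⁻¹ * ‖Gamma ((b : ℂ) - I * ω)‖ * ((‖z‖ ^ b)⁻¹ * Real.exp (-(ω * arg z)))
      = ((T ^ b)⁻¹ * (‖z‖ ^ b)⁻¹) * (‖Gamma ((b : ℂ) - I * ω)‖ * Real.exp (-(ω * arg z))) := by
        ring
    _ ≤ (y ^ b)⁻¹ * ((C * (1 + |ω|) ^ ((b : ℝ) - 1 / 2) * Real.exp (-(Real.pi * |ω| / 2))) *
          Real.exp (|ω| * (Real.pi / 2 - 1 / (2 * y)))) := by
        have := hG ω
        gcongr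
    _ = C * (1 + |ω|) ^ (-(1 / 2 : ℝ)) * ((1 + |ω|) / y) ^ b * (Real.exp (-(Real.pi * |ω| / 2)) *
          Real.exp (|ω| * (Real.pi / 2 - 1 / (2 * y)))) := by
        rw [hpow, div_pow]
        ring
    _ = _ := by rw [hexp]

end Pool.Agent.U8.GZ
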